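import Pool.Agent.T4h28.DT.U
import Pool.Agent.Results.MP_4d52ff_nt.AlmostAllTuples

/-!
# MP_4d52ff_nt: multiple zeta values at the divisors of shifted primes

Let `w_1, ..., w_r` be admissible patterns in `k` variables, as in the starting file `AlmostAllTuples`: the constant first
letters of each pattern are equal and even (for example no first letter is constant), or the relations between the multiple
zeta values of the fronts split. For all but `M (X / log X)^k / √y` of the `k`-tuples of primes `p_i ≤ X`, for ALL tuples of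
divisors `s_i` of `p_i + b_i` which are of comparable size `T ≤ s_i ≤ κ T`, `T ≥ y`, all polynomial relations of degree at
most `D` with integer coefficients of absolute value at most `C ^ T` between the multiple zeta values `ζ(w_i(s))` split into
relations of one weight.

Proof. By `AlmostAllTuples` at most `K N^(k-1)` of the tuples `s` in `[N, 2 κ N]^k` are bad. For a given tuple `s` the number
of the tuples of primes with `s_i ∣ p_i + b_i` is at most `∏ 176 (1 + |b_i|) X / log X * (1 + log s_i)^3 / s_i`, by the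
Brun-Titchmarsh inequality for `s_i ≤ √X` and trivially for the larger `s_i`. So the sum over the bad tuples of the scale `N`
is at most a power of `log N` over `N` times `(X / log X)^k`. The number of the divisors is not bounded, and the divisors of
`p + b` are in general much smaller than `p`, so that this is not a consequence of the number of the bad tuples alone.
-/

set_option autoImplicit false

namespace Pool.Agent.Results.MP_4d52ff_nt.DivisorsOfShiftedPrimes

open Pool.Agent.T4h28.DT (BadAt BadPrimes machine)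
open Pool.Agent.Results.MP_4d52ff_nt.AlmostAllTuples
  (Letter AdmissiblePattern EvenFront Splits fronts Bad Few)

lemma bad_mono {k r : ℕ} (w : Fin r → List (Letter k)) (D : ℕ) {H H' : ℝ} (s : Fin k → ℕ) (h : H ≤ H')
    (hs : Bad w D H s) : Bad w D H' s := by
  obtain ⟨P, h1, h2, h3⟩ := hs
  exact ⟨P, h1, fun m => (h2 m).trans h, h3⟩

lemma pow_bound (C : ℝ) {N T : ℕ} (h : T ≤ 2 * N) : C ^ T ≤ ((max |C| 1) ^ 2) ^ N := by
  have h5 : (1 : ℝ) ≤ max |C| 1 := le_max_right _ _
  calc C ^ T ≤ |C ^ T| := le_abs_self _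
    _ = |C| ^ T := abs_pow C T
    _ ≤ (max |C| 1) ^ T := pow_le_pow_left₀ (abs_nonneg C) (le_max_left _ _) T
    _ ≤ (max |C| 1) ^ (2 * N) := pow_le_pow_right₀ h5 h
    _ = _ := pow_mul _ _ _

/-- Let `k ≥ 1`, let `w_1, ..., w_r` be admissible patterns in `k` variables with even fronts (or for which the relations
between the multiple zeta values of the fronts split), `D`, `κ` natural numbers and `C` real. There is `M` such that for all
integers `b_1, ..., b_k`, all `y ≥ 1` and `X ≥ 4`, for all but at most `M ∏ (1 + |b_i|) (X / log X)^k / √y` of the tuples of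
primes with `|b_i| < p_i ≤ X`: for ALL `T ≥ y` and ALL tuples `s` of natural numbers with `T ≤ s_i ≤ κ T` and
`s_i ∣ p_i + b_i` for all `i`, every polynomial relation of degree at most `D` with integer coefficients of absolute value at
most `C ^ T` between the multiple zeta values `ζ(w_i(s))` splits into relations of one weight. -/
theorem result {k r : ℕ} (hk : 1 ≤ k) (w : Fin r → List (Letter k)) (hw : ∀ i, AdmissiblePattern (w i))
    (hf : (∀ i, EvenFront (w i)) ∨ Splits (fronts w)) (D κ : ℕ) (C : ℝ) :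
    ∃ M : ℝ, 0 ≤ M ∧ ∀ (b : Fin k → ℤ) (X y : ℕ), 1 ≤ y → 4 ≤ X →
      ({p : Fin k → ℕ | (∀ i, (p i).Prime ∧ |b i| < p i ∧ p i ≤ X) ∧
        ¬ ∀ (T : ℕ) (s : Fin k → ℕ), y ≤ T → (∀ i, T ≤ s i ∧ s i ≤ κ * T ∧ (s i : ℤ) ∣ (p i : ℤ) + b i) →
          ¬ Bad w D (C ^ T) s}.ncard : ℝ) ≤
        M * (∏ i, (1 + |(b i : ℝ)|)) * (X / Real.log X) ^ k / √(y : ℝ) := by
  obtain ⟨m, rfl⟩ : ∃ m, k = m + 1 := ⟨k - 1, by omega⟩
  have hfew : Few (2 * κ) fun H s => Bad w D H s := by
    rcases hf with hf | hf
    · exact Pool.Agent.Results.MP_4d52ff_nt.AlmostAllTuples.result.1 (m + 1) r w hw hf D (2 * κ)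
    · exact Pool.Agent.Results.MP_4d52ff_nt.AlmostAllTuples.result.2.1 (m + 1) r w hw hf D (2 * κ)
  obtain ⟨K, hK⟩ := hfew
  obtain ⟨N₀, hN₀⟩ := hK ((max |C| 1) ^ 2)
  obtain ⟨M, hM0, hM⟩ := machine κ (fun T s => Bad w D (C ^ T) s) K N₀ (fun N hN => by
    have h1 := hN₀ N hN
    rw [Nat.add_sub_cancel] at h1
    refine le_trans (Set.ncard_le_ncard ?_ ?_) h1
    · rintro s ⟨g1, T, g2, g3, g4⟩
      exact ⟨g1, bad_mono w D s (pow_bound C g3.le) g4⟩
    · refine (Set.Finite.pi' (t := fun _ : Fin (m + 1) => Set.Icc N (2 * κ * N)) fun _ => Set.finite_Icc _ _).subset ?_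
      intro s hs j
      exact ⟨(hs.1 j).1, (hs.1 j).2⟩)
  refine ⟨M, hM0, fun b X y hy hX => ?_⟩
  have h2 := hM b X y hy hX
  have e1 : ∏ i, (1 + ((b i).natAbs : ℝ)) = ∏ i, (1 + |(b i : ℝ)|) := by
    refine Finset.prod_congr rfl fun i _ => ?_
    rw [Nat.cast_natAbs, Int.cast_abs]
  rw [e1] at h2
  refine le_trans (le_of_eq ?_) h2
  congr 2
  ext p
  simp only [Set.mem_ofPred_eq, BadPrimes, not_forall, not_not, exists_prop]
  constructor
  · rintro ⟨g1, T, s, g2, g3, g4⟩
    refine ⟨fun i => ⟨(g1 i).1, ?_, (g1 i).2.2⟩, T, s, g2, g3, g4⟩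
    have := (g1 i).2.1
    rw [Int.abs_eq_natAbs] at this
    exact_mod_cast this
  · rintro ⟨g1, T, s, g2, g3, g4⟩
    refine ⟨fun i => ⟨(g1 i).1, ?_, (g1 i).2.2⟩, T, s, g2, g3, g4⟩
    have := (g1 i).2.1
    rw [Int.abs_eq_natAbs]
    exact_mod_cast this

end Pool.Agent.Results.MP_4d52ff_nt.DivisorsOfShiftedPrimes
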